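import Pool.Agent.C4U.Stmts

set_option autoImplicit false

namespace Pool.Agent.C4U.H16

open Pool.Agent.C4F (Lt cn)

theorem len_flat {α : Type} (L : ℕ → List α) (B : ℕ) (hL : ∀ e, (L e).length = B) (D : ℕ) :
    ((List.range D).flatMap L).length = D * B := by
  induction D with
  | zero => simp
  | succ D ih =>
    rw [List.range_succ, List.flatMap_append, List.length_append, ih]
    simp [hL, Nat.succ_mul]

theorem get_flat {α : Type} (L : ℕ → List α) (B : ℕ) (hL : ∀ e, (L e).length = B) (D e u : ℕ)
    (he : e < D) (hu : u < B) :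
    ((List.range D).flatMap L)[e * B + u]? = (L e)[u]? := by
  induction D with
  | zero => omega
  | succ D ih =>
    rw [List.range_succ, List.flatMap_append]
    have hlen := len_flat L B hL D
    rcases Nat.lt_or_ge e D with h | h
    · rw [List.getElem?_append_left, ih h]
      rw [hlen]
      calc e * B + u < e * B + B := by omega
        _ = (e + 1) * B := by ring
        _ ≤ D * B := Nat.mul_le_mul_right B h
    · have heD : e = D := by omega
      subst heD
      rw [List.getElem?_append_right (by rw [hlen]; omega), hlen]
      simp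

theorem get_jw (N : ℕ) (J : ℕ → Prop) (x : ℕ) :
    (jw N J)[x]? = some Lt.pos ↔ x < N ∧ J x := by
  unfold jw
  rw [List.getElem?_map]
  rcases Nat.lt_or_ge x N with h | h
  · rw [List.getElem?_range h]
    by_cases hJ : J x <;> simp [hJ, h]
  · rw [List.getElem?_eq_none (by simpa using h)]
    simp [Nat.not_lt.2 h]

/-- **SWR** -/
theorem swr (hcn : CnlStmt) : SwrStmt := by
  intro V m c hV hJ hm hc
  obtain ⟨-, -, hcn3, -⟩ := hcn
  obtain ⟨hm1, hm2, hm3⟩ := hm
  obtain ⟨l, hl, hc1, hc2⟩ := hc
  have hk : (sw V m c 0).length = V.k := by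
    show (List.replicate V.k Lt.tick).length = V.k
    exact List.length_replicate
  have hN : (sw V m c 1).length = V.N := by
    show (List.replicate V.N Lt.tick).length = V.N
    exact List.length_replicate
  have hcwl : (cw V.dd (V.N + 1) c).length = V.dd * (V.N + 1) := by
    unfold cw
    exact len_flat _ _ (fun e => by simp) _
  have hjwl : (jw V.N V.J).length = V.N := by
    unfold jw
    simp
  refine ⟨?_, ?_, ?_, ?_⟩
  · have hA : (fun x y => x < (sw V m c 1).length ∧ y < (sw V m c 1).length ∧
        (sw V m c 2)[x * (sw V m c 1).length + y]? = some Lt.pos) = V.A := by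
      funext x y
      apply propext
      rw [hN]
      constructor
      · rintro ⟨h1, h2, h3⟩
        exact (hm3 x h1 y h2).1 h3
      · intro h
        obtain ⟨h1, h2⟩ := hV.rng x y h
        exact ⟨h1, h2, (hm3 x h1 y h2).2 h⟩
    have hJ' : (fun x => (sw V m c 3)[x]? = some Lt.pos) = V.J := by
      funext x
      apply propext
      have h1 := get_jw V.N V.J x
      constructor
      · intro h
        exact (h1.1 h).2
      · intro h
        exact h1.2 ⟨hJ.1 x h, h⟩
    show Gr.mk _ _ _ _ = V
    cases V
    simp only [Gr.mk.injEq]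
    exact ⟨hk, hN, hA, hJ'⟩
  · funext e
    show cn (fun u => (sw V m c 4)[e * ((sw V m c 1).length + 1) + u]? = some Lt.tick)
      ((sw V m c 1).length + 1) = c e
    rw [hN]
    have hle : c e ≤ V.N + 1 := by
      rcases Nat.lt_or_ge e l with h | h
      · exact (hc1 e h).2
      · rw [hc2 e h]
        omega
    rw [hcn3 _ _ (c e), min_eq_left hle]
    intro u hu
    show (cw V.dd (V.N + 1) c)[e * (V.N + 1) + u]? = some Lt.tick ↔ u < c e
    rcases Nat.lt_or_ge e V.dd with h | h
    · unfold cw
      rw [get_flat _ (V.N + 1) (fun e => by simp) _ _ _ h hu, List.getElem?_map,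
        List.getElem?_range hu]
      by_cases hh : u < c e <;> simp [hh]
    · rw [hc2 e (hl.trans h), List.getElem?_eq_none]
      · simp
      · rw [hcwl]
        exact (Nat.mul_le_mul_right _ h).trans (Nat.le_add_right _ _)
  · intro i hi
    have h5 : i = 0 ∨ i = 1 ∨ i = 2 ∨ i = 3 := by omega
    rcases h5 with rfl | rfl | rfl | rfl
    · show Lt.bar ∉ List.replicate V.k Lt.tick
      rw [List.mem_replicate]
      rintro ⟨-, h⟩
      cases h
    · show Lt.bar ∉ List.replicate V.N Lt.tick
      rw [List.mem_replicate]
      rintro ⟨-, h⟩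
      cases h
    · show Lt.bar ∉ m
      intro h
      rcases hm2 _ h with h | h <;> cases h
    · show Lt.bar ∉ jw V.N V.J
      unfold jw
      intro h
      obtain ⟨v, -, hv⟩ := List.mem_map.1 h
      by_cases hJv : V.J v <;> simp [hJv] at hv
  · unfold jn
    have h2 : (sw V m c 2).length = V.N * V.N := hm1
    have h3 : (sw V m c 3).length = V.N := hjwl
    have h4 : (sw V m c 4).length = V.dd * (V.N + 1) := hcwl
    rw [List.length_append, List.length_cons, List.length_append, List.length_cons,
      List.length_append, List.length_cons, List.length_append, List.length_cons, hk, hN, h2, h3, h4]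
    ring

end Pool.Agent.C4U.H16
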